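import Mathlib
import Pool.Agent.Y774.ST.Stm

/-! # Project ST: the escape function of the walk with constant bias (helper182) -/

set_option autoImplicit false

namespace Pool.Agent.Y182.ST

open Filter Topology
open Pool.Agent.H528R3.Stairs

theorem AB (n : ℕ) : ∃ J : ℝ, 0 ≤ J ∧ A (n + 1) * s (n + 1) = J ∧ B (n + 1) * s n = J := by
  rcases Nat.even_or_odd n with hn | hn
  · obtain ⟨i, rfl⟩ := hn
    have hodd : ¬ Even (i + i + 1) := by
      rw [Nat.not_even_iff_odd]; exact ⟨i, by ring⟩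
    have hev : Even (i + i) := ⟨i, rfl⟩
    have hdiv : (i + i + 1)/2 = i := by omega
    have hdiv' : (i + i)/2 = i := by omega
    refine ⟨((i:ℝ)+1)^2, by positivity, ?_, ?_⟩
    · unfold A s
      rw [if_neg hodd, if_neg hodd, hdiv]
      push_cast
      have : ((i:ℝ)+1)^2 + ((i:ℝ)+2)^2 ≠ 0 := by positivity
      field_simp
    · unfold B s
      rw [if_neg (by omega), if_neg hodd, if_pos hev, hdiv']
      push_cast
      ring
  · obtain ⟨i, rfl⟩ := hn
    have hodd : ¬ Even (2*i+1) := by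
      rw [Nat.not_even_iff_odd]; exact ⟨i, by ring⟩
    have hev : Even (2*i+1+1) := ⟨i+1, by ring⟩
    have hdiv : (2*i+1+1)/2 = i+1 := by omega
    have hdiv' : (2*i+1)/2 = i := by omega
    refine ⟨((i:ℝ)+2)^2, by positivity, ?_, ?_⟩
    · unfold A s
      rw [if_pos hev, if_pos hev, hdiv]
      push_cast
      ring
    · unfold B s
      rw [if_neg (by omega), if_pos hev, if_neg hodd, hdiv, hdiv']
      push_cast
      have : ((i:ℝ)+1+1)^2 + ((i:ℝ)+1)^2 ≠ 0 := by positivity
      field_simp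
      ring

theorem s_ge (k : ℕ) : (((k + 2).choose 2 : ℕ) : ℝ) ≤ s k := by
  have h1 : (((k + 2).choose 2 : ℕ) : ℝ) = ((k : ℝ) + 2) * ((k : ℝ) + 1) / 2 := by
    rw [Nat.cast_choose_two]
    push_cast
    ring
  rw [h1]
  unfold s
  split_ifs with h
  · obtain ⟨i, rfl⟩ := h
    have : (i + i) / 2 = i := by omega
    rw [this]
    push_cast
    have : (0 : ℝ) ≤ i := Nat.cast_nonneg i
    nlinarith
  · rw [Nat.not_even_iff_odd] at h
    obtain ⟨i, rfl⟩ := h
    have : (2 * i + 1) / 2 = i := by omega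
    rw [this]
    push_cast
    have : (0 : ℝ) ≤ i := Nat.cast_nonneg i
    nlinarith

theorem summ {r : ℝ} (h0 : 0 ≤ r) (h1 : r < 1) : Summable fun k => s k * r ^ k := by
  have hn : ‖r‖ < 1 := by rw [Real.norm_eq_abs, abs_of_nonneg h0]; exact h1
  have h2 := summable_pow_mul_geometric_of_norm_lt_one 2 hn
  have h1 := summable_pow_mul_geometric_of_norm_lt_one 1 hn
  have h0' := summable_pow_mul_geometric_of_norm_lt_one 0 hn
  have h := ((h2.mul_left 2).add (h1.mul_left 8)).add (h0'.mul_left 8)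
  refine Summable.of_nonneg_of_le (fun k => mul_nonneg (s_pos k).le (pow_nonneg h0 k))
    (fun k => ?_) h
  have := mul_le_mul_of_nonneg_right (s_le k) (pow_nonneg h0 k)
  calc s k * r^k ≤ 2 * ((k:ℝ)+2)^2 * r^k := this
    _ = _ := by ring

theorem main : Pool.Agent.Y774.ST.StmH := by
  intro b hb hb2
  set r : ℝ := (1/2 - b) / (1/2 + b) with hr
  have hbp : 0 < 1/2 + b := by linarith
  have hr0 : 0 ≤ r := div_nonneg (by linarith) hbp.le
  have hr1 : r < 1 := by rw [hr, div_lt_one hbp]; linarith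
  have hrb : (1/2 + b) * r = 1/2 - b := by rw [hr]; field_simp
  have hrn : ‖r‖ < 1 := by rw [Real.norm_eq_abs, abs_of_nonneg hr0]; exact hr1
  set w : ℕ → ℝ := fun k => s k * r ^ k with hw
  have hw0 : ∀ k, 0 ≤ w k := fun k => mul_nonneg (s_pos k).le (pow_nonneg hr0 k)
  have hws : Summable w := summ hr0 hr1
  set W : ℝ := ∑' k, w k with hW
  have hlow : 1 / (64 * b ^ 3) ≤ W := by
    have h1 := tsum_choose_mul_geometric_of_norm_lt_one 2 hrn
    have h2 : Summable fun n : ℕ => (((n + 2).choose 2 : ℕ) : ℝ) * r ^ n :=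
      Summable.of_nonneg_of_le (fun n => mul_nonneg (Nat.cast_nonneg _) (pow_nonneg hr0 n))
        (fun n => mul_le_mul_of_nonneg_right (s_ge n) (pow_nonneg hr0 n)) hws
    have h3 : ∑' n : ℕ, (((n + 2).choose 2 : ℕ) : ℝ) * r ^ n ≤ W :=
      h2.tsum_le_tsum (fun n => mul_le_mul_of_nonneg_right (s_ge n) (pow_nonneg hr0 n)) hws
    rw [h1] at h3
    refine le_trans ?_ h3
    have h4 : 1 - r ≤ 4 * b := by
      rw [hr, sub_le_iff_le_add, ← sub_le_iff_le_add', le_div_iff₀ hbp]
      nlinarith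
    have h5 : 0 < 1 - r := by linarith
    have h6 : (1 - r) ^ (2 + 1) ≤ 64 * b ^ 3 := by
      calc (1 - r) ^ (2 + 1) ≤ (4 * b) ^ (2 + 1) := pow_le_pow_left₀ h5.le h4 _
        _ = 64 * b ^ 3 := by ring
    exact one_div_le_one_div_of_le (by positivity) h6
  have hWpos : 0 < W := lt_of_lt_of_le (by positivity) hlow
  refine ⟨fun m => (∑ k ∈ Finset.range m, w k) / W, by simp, ?_, ?_, ?_, ?_, ?_⟩
  · refine monotone_nat_of_le_succ fun m => ?_
    rw [Finset.sum_range_succ]
    have := hw0 m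
    gcongr
    linarith
  · intro m
    simp only
    rw [div_le_one hWpos]
    exact hws.sum_le_tsum _ fun k _ => hw0 k
  · have h1 := hws.hasSum.tendsto_sum_nat.div_const W
    rwa [div_self hWpos.ne'] at h1
  · simp only [Finset.sum_range_one]
    have hw00 : w 0 = 2 := by simp [hw, s]
    rw [hw00, div_le_iff₀ hWpos]
    have h1 : 256 * b ^ 3 * (1 / (64 * b ^ 3)) ≤ 256 * b ^ 3 * W :=
      mul_le_mul_of_nonneg_left hlow (by positivity)
    have h2 : 256 * b ^ 3 * (1 / (64 * b ^ 3)) = 4 := by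
      field_simp
      norm_num
    linarith
  · intro b' hb0 hb1 m hm
    obtain ⟨n, rfl⟩ : ∃ n, m = n + 1 := ⟨m - 1, by omega⟩
    obtain ⟨J, hJ0, hJA, hJB⟩ := AB n
    rw [T_eq]
    simp only [Nat.add_sub_cancel]
    have e1 : (∑ k ∈ Finset.range (n + 1 + 1), w k) / W - (∑ k ∈ Finset.range (n + 1), w k) / W =
        s (n + 1) * r ^ (n + 1) / W := by
      rw [Finset.sum_range_succ _ (n + 1)]
      simp only [hw]
      ring
    have e2 : (∑ k ∈ Finset.range n, w k) / W - (∑ k ∈ Finset.range (n + 1), w k) / W =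
        -(s n * r ^ n / W) := by
      rw [Finset.sum_range_succ _ n]
      simp only [hw]
      ring
    rw [e1, e2]
    have e3 : (1/2 + b') * A (n + 1) * (s (n + 1) * r ^ (n + 1) / W) +
        (1/2 - b') * B (n + 1) * -(s n * r ^ n / W) =
        J * r ^ n / W * ((1/2 + b') * r - (1/2 - b')) := by
      calc _ = (1/2 + b') * (A (n + 1) * s (n + 1)) * r ^ (n + 1) / W -
            (1/2 - b') * (B (n + 1) * s n) * r ^ n / W := by ring
        _ = _ := by rw [hJA, hJB]; ring
    have h1 : (1/2 + b') * r - (1/2 - b') ≤ 0 := by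
      have : (1/2 + b') * r ≤ (1/2 + b) * r := mul_le_mul_of_nonneg_right (by linarith) hr0
      linarith
    have h2 : 0 ≤ J * r ^ n / W := by positivity
    have h3 : J * r ^ n / W * ((1/2 + b') * r - (1/2 - b')) ≤ 0 :=
      mul_nonpos_of_nonneg_of_nonpos h2 h1
    linarith [e3]

end Pool.Agent.Y182.ST
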